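import Pool.Agent.H48.FXD.TAN
import Pool.Agent.H5.FXD.MCA
import Pool.Agent.H16.FXD.MDC
import Pool.Agent.H16.FXD.MVL
import Pool.Agent.H38.FXD.SML
import Pool.Agent.H38.FXD.DML
import Pool.Agent.H2.FXD.INV
import Pool.Agent.H2.FXD.LIN

/-!
# MP_ea41d9_gt: curves of fixed points in the direction of a fixed vector
-/

open Bundle Manifold Filter Set
open scoped ContDiff Topology

namespace Pool.Agent.H48.FXD

variable {E : Type*} [NormedAddCommGroup E] [NormedSpace ℝ E] [FiniteDimensional ℝ E]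
  {M : Type*} [MetricSpace M] [ChartedSpace E M] [IsManifold 𝓘(ℝ, E) ∞ M]
  [RiemannianBundle (fun x : M => TangentSpace 𝓘(ℝ, E) x)]
  [IsContMDiffRiemannianBundle 𝓘(ℝ, E) ∞ E (fun x : M => TangentSpace 𝓘(ℝ, E) x)]
  [IsRiemannianManifold 𝓘(ℝ, E) M]
  {G : Type*} [Group G] [TopologicalSpace G] [CompactSpace G] [MulAction G M]

/-- The action in the chart at a fixed point is a local action. -/
theorem exists_locAct (hact : IsometricAction E M G) {z : M} (hz : ∀ g : G, g • z = z) :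
    ∃ (V : Set E) (D : G → E → E →L[ℝ] E), V ⊆ (extChartAt 𝓘(ℝ, E) z).target ∧
      LocAct (extChartAt 𝓘(ℝ, E) z z) V
        (fun (g : G) y => extChartAt 𝓘(ℝ, E) z (g • (extChartAt 𝓘(ℝ, E) z).symm y)) D ∧
      (∀ (g : G) (v : E), D g (extChartAt 𝓘(ℝ, E) z z) v =
        mfderiv 𝓘(ℝ, E) 𝓘(ℝ, E) (fun x : M => g • x) z v) ∧
      ∀ g : G, ∀ y ∈ V,
        g • (extChartAt 𝓘(ℝ, E) z).symm y ∈ (extChartAt 𝓘(ℝ, E) z).source := by
  have hcont : Continuous fun p : G × M => p.1 • p.2 := Pool.Agent.H5.FXD.pf_MCA hact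
  have hsrc : IsOpen (extChartAt 𝓘(ℝ, E) z).source := isOpen_extChartAt_source z
  have htgt : IsOpen (extChartAt 𝓘(ℝ, E) z).target := isOpen_extChartAt_target z
  have hzs : z ∈ (extChartAt 𝓘(ℝ, E) z).source := mem_extChartAt_source z
  have hU : ∀ᶠ x in 𝓝 z, ∀ g : G, g • x ∈ (extChartAt 𝓘(ℝ, E) z).source := by
    have h := isCompact_univ.eventually_forall_of_forall_eventually (X := M) (Y := G)
      (x₀ := z) (K := univ) (P := fun x g => g • x ∈ (extChartAt 𝓘(ℝ, E) z).source) (by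
        intro g _
        have h1 : Tendsto (fun p : M × G => p.2 • p.1) (𝓝 (z, g)) (𝓝 (g • z)) := by
          have h2 : Continuous fun p : M × G => p.2 • p.1 := hcont.comp continuous_swap
          exact h2.tendsto (z, g)
        rw [hz g] at h1
        exact h1 (hsrc.mem_nhds hzs))
    filter_upwards [h] with x hx g
    exact hx g (mem_univ g)
  obtain ⟨U, hUs, hUo, hzU⟩ := eventually_nhds_iff.1 hU
  obtain ⟨V, hV⟩ : ∃ V : Set E, V = (extChartAt 𝓘(ℝ, E) z).target ∩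
    (extChartAt 𝓘(ℝ, E) z).symm ⁻¹' U := ⟨_, rfl⟩
  have hVo : IsOpen V := by
    rw [hV]
    exact (continuousOn_extChartAt_symm z).isOpen_inter_preimage htgt hUo
  have hVt : V ⊆ (extChartAt 𝓘(ℝ, E) z).target := by
    rw [hV]
    exact inter_subset_left
  have hzV : extChartAt 𝓘(ℝ, E) z z ∈ V := by
    rw [hV]
    refine ⟨mem_extChartAt_target z, ?_⟩
    rw [mem_preimage, extChartAt_to_inv]
    exact hzU
  have hVs : ∀ g : G, ∀ y ∈ V,
      g • (extChartAt 𝓘(ℝ, E) z).symm y ∈ (extChartAt 𝓘(ℝ, E) z).source := by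
    intro g y hy
    rw [hV] at hy
    exact hUs _ hy.2 g
  obtain ⟨hd1, hd2, hd3⟩ := Pool.Agent.H16.FXD.pf_MDC hact hz hVo hVt hVs
  refine ⟨V, fun g => fderiv ℝ
    (fun y => extChartAt 𝓘(ℝ, E) z (g • (extChartAt 𝓘(ℝ, E) z).symm y)), hVt, ?_,
    fun g v => hd3 hzV g v, hVs⟩
  exact {
    isOpen := hVo
    mem := hzV
    fix := fun g => by
      rw [extChartAt_to_inv, hz g]
    cont := by
      have h1 : ContinuousOn (fun p : G × E => (p.1, (extChartAt 𝓘(ℝ, E) z).symm p.2))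
          (univ ×ˢ V) := by
        apply ContinuousOn.prodMk continuousOn_fst
        exact ((continuousOn_extChartAt_symm z).mono hVt).comp continuousOn_snd
          (fun p hp => hp.2)
      have h2 := hcont.comp_continuousOn h1
      exact (continuousOn_extChartAt z).comp h2 (fun p hp => hVs p.1 p.2 hp.2)
    contD := hd2
    deriv := fun g y hy => (hd1 g y hy).hasFDerivAt
    mul := fun g h y hy _ => by
      rw [(extChartAt 𝓘(ℝ, E) z).left_inv (hVs h y hy), mul_smul]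
    one := fun y hy => by
      rw [one_smul, (extChartAt 𝓘(ℝ, E) z).right_inv (hVt hy)] }

/-- For a vector fixed by the compact group there is a curve of fixed points with this velocity. -/
theorem exists_fixed_curve [IsTopologicalGroup G] (hact : IsometricAction E M G) {z : M}
    (hz : ∀ g : G, g • z = z) {v : E}
    (hv : ∀ g : G, mfderiv 𝓘(ℝ, E) 𝓘(ℝ, E) (fun x : M => g • x) z v = v) :
    ∃ σ : ℝ → M, σ 0 = z ∧ ContinuousAt σ 0 ∧
      HasDerivAt (fun s => extChartAt 𝓘(ℝ, E) z (σ s)) v 0 ∧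
      ∀ᶠ s in 𝓝 (0 : ℝ), ∀ g : G, g • σ s = σ s := by
  obtain ⟨V, D, hVt, hLoc, hD, hVs⟩ := exists_locAct hact hz
  have hsml : ∀ N ∈ 𝓝 (extChartAt 𝓘(ℝ, E) z z), ∀ᶠ y in 𝓝 (extChartAt 𝓘(ℝ, E) z z),
      ∀ g : G, extChartAt 𝓘(ℝ, E) z (g • (extChartAt 𝓘(ℝ, E) z).symm y) ∈ N :=
    fun N hN => Pool.Agent.H38.FXD.pf_SML hLoc hN
  obtain ⟨hmul, hone, hC⟩ := Pool.Agent.H38.FXD.pf_DML hLoc
  obtain ⟨ψ, h0, hd, he⟩ := Pool.Agent.H2.FXD.pf_LIN hLoc hsml
    (fun δ hδ => Pool.Agent.H16.FXD.pf_MVL hLoc hδ) hmul hone hC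
  obtain ⟨σ, hσ0, hσd, hσf⟩ := Pool.Agent.H2.FXD.pf_INV hLoc hsml h0 hd he
    (v := v) (fun g => (hD g v).trans (hv g))
  have hσc : ContinuousAt σ 0 := hσd.continuousAt
  have hσV : ∀ᶠ s in 𝓝 (0 : ℝ), σ s ∈ V := by
    apply hσc
    rw [hσ0]
    exact hLoc.isOpen.mem_nhds hLoc.mem
  refine ⟨fun s => (extChartAt 𝓘(ℝ, E) z).symm (σ s), ?_, ?_, ?_, ?_⟩
  · simp only
    rw [hσ0, extChartAt_to_inv]
  · apply ContinuousAt.comp_of_eq (continuousAt_extChartAt_symm z) hσc hσ0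
  · refine hσd.congr_of_eventuallyEq ?_
    filter_upwards [hσV] with s hs
    exact (extChartAt 𝓘(ℝ, E) z).right_inv (hVt hs)
  · filter_upwards [hσV, hσf] with s hs hs2 g
    have h1 := congrArg (extChartAt 𝓘(ℝ, E) z).symm (hs2 g)
    rw [(extChartAt 𝓘(ℝ, E) z).left_inv (hVs g _ hs)] at h1
    exact h1

end Pool.Agent.H48.FXD
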