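import Pool.Agent.H48.FXD.GE5
import Pool.Agent.H48.FXD.FIX

/-!
# MP_ea41d9_gt: the kernel inequalities for the distance function of a fixed circle
-/

open Bundle Manifold Filter Set
open scoped ContDiff Topology

namespace Pool.Agent.H48.FXD

variable {E : Type*} [NormedAddCommGroup E] [NormedSpace ℝ E] [FiniteDimensional ℝ E]
  {M : Type*} [MetricSpace M] [ChartedSpace E M] [IsManifold 𝓘(ℝ, E) ∞ M]
  [RiemannianBundle (fun x : M => TangentSpace 𝓘(ℝ, E) x)]
  [IsContMDiffRiemannianBundle 𝓘(ℝ, E) ∞ E (fun x : M => TangentSpace 𝓘(ℝ, E) x)]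
  [IsRiemannianManifold 𝓘(ℝ, E) M]
  {G : Type*} [Group G] [TopologicalSpace G] [IsTopologicalGroup G] [CompactSpace G]
  [MulAction G M] {F : ℝ → M} {L : ℝ}

/-- A vector fixed by the group is tangent to the circle. -/
theorem fixed_vector (hG : IsometricAction E M G) (hF : FixedCircle E G F L) (t : ℝ) (v : E)
    (hv : ∀ g : G, dg g (F t) v = v) : ∃ r : ℝ, v = r • vel E F t := by
  have hz : ∀ g : G, g • F t = F t := fun g => hF.smul_eq g t
  obtain ⟨σ, h0, hc, hσ, he⟩ := exists_fixed_curve hG hz (v := v) hv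
  have hu0 : vel E F t ≠ 0 := by
    intro h
    have h1 : tn (F t) (vel E F t) = 1 := tn_vel hF t
    rw [h] at h1
    have h2 : tn (F t) (0 : E) = 0 := norm_zero (E := TangentSpace 𝓘(ℝ, E) (F t))
    rw [h2] at h1
    exact zero_ne_one h1
  exact hF.tangent t hu0 (Pool.Agent.H99.FXD.pf_LDF hF.smooth t) h0 hc hσ he

/-- The distance function on the fixed circle satisfies the kernel inequalities. -/
theorem fixedCircle_curveKer (hM : CurvGeOne M) (hG : IsometricAction E M G)
    (hF : FixedCircle E G F L) : Pool.Agent.H48.FXC.CurveKer F L :=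
  curveKer hM hG hF (fun t v hv => fixed_vector hG hF t v hv)

end Pool.Agent.H48.FXD
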