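import Mathlib

/-!
# MP_ea41d9_gt: the length of a circle fixed by isometries, definitions

Everything is stated for Mathlib's Riemannian manifolds: `M` is a manifold without boundary
modelled on the finite-dimensional space `E`, and `IsRiemannianManifold 𝓘(ℝ, E) M` says that the
distance of the metric space `M` is the infimum of the lengths of `C^1` curves.
-/

open Bundle Manifold Filter
open scoped ContDiff Topology

namespace Pool.Agent.H48.FXD

section Metric

variable {M : Type*} [MetricSpace M]

/-- `c` restricted to `[0, dist x y]` is a minimizing geodesic from `x` to `y`, parametrized by arc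
length. -/
structure MinGeo (c : ℝ → M) (x y : M) : Prop where
  start : c 0 = x
  finish : c (dist x y) = y
  isom : ∀ s ∈ Set.Icc (0 : ℝ) (dist x y), ∀ t ∈ Set.Icc (0 : ℝ) (dist x y),
    dist (c s) (c t) = |s - t|

variable (M) in
/-- Curvature at least one in the sense of Alexandrov: any two points are joined by a minimizing
geodesic, distances are at most `π`, and in every triangle with vertices `p`, `x`, `y` the distance
from `p` to a point of the side from `x` to `y` is at least the corresponding distance in the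
comparison triangle in the unit sphere. -/
structure CurvGeOne : Prop where
  geodesic : ∀ x y : M, ∃ c : ℝ → M, MinGeo c x y
  diam_le : ∀ x y : M, dist x y ≤ Real.pi
  comparison : ∀ (p x y : M) (c : ℝ → M), MinGeo c x y →
    ∀ t ∈ Set.Icc (0 : ℝ) (dist x y),
      Real.sin (dist x y) * Real.cos (dist p (c t)) ≤
        Real.sin (dist x y - t) * Real.cos (dist p x) + Real.sin t * Real.cos (dist p y)

end Metric

section Riemannian

variable (E : Type*) [NormedAddCommGroup E] [NormedSpace ℝ E]
  {M : Type*} [MetricSpace M] [ChartedSpace E M] [IsManifold 𝓘(ℝ, E) ∞ M]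
  [RiemannianBundle (fun x : M => TangentSpace 𝓘(ℝ, E) x)]

variable (M) in
/-- The topological group `G` acts on `M` by smooth isometries of the Riemannian metric, and the
action on the tangent bundle is continuous. -/
structure IsometricAction (G : Type*) [Group G] [TopologicalSpace G] [MulAction G M] : Prop where
  smooth : ∀ g : G, ContMDiff 𝓘(ℝ, E) 𝓘(ℝ, E) ∞ (fun x : M => g • x)
  inner_map : ∀ (g : G) (x : M) (v w : TangentSpace 𝓘(ℝ, E) x),
    inner ℝ (mfderiv 𝓘(ℝ, E) 𝓘(ℝ, E) (fun y : M => g • y) x v)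
      (mfderiv 𝓘(ℝ, E) 𝓘(ℝ, E) (fun y : M => g • y) x w) = inner ℝ v w
  continuous_tangent : Continuous fun p : G × TangentBundle 𝓘(ℝ, E) M =>
    tangentMap 𝓘(ℝ, E) 𝓘(ℝ, E) (fun x : M => p.1 • x) p.2

/-- The fixed point set of `G` is a circle of length `L`: it is the image of the smooth curve `F`,
which is parametrized by arc length, closed with period `L`, simple, and a geodesic (locally
minimizing). -/
structure FixedCircle (G : Type*) [Group G] [MulAction G M] (F : ℝ → M) (L : ℝ) : Prop where
  length_pos : 0 < L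
  smooth : ContMDiff 𝓘(ℝ, ℝ) 𝓘(ℝ, E) ∞ F
  unit_speed : ∀ t, ‖mfderiv 𝓘(ℝ, ℝ) 𝓘(ℝ, E) F t (1 : ℝ)‖ = 1
  periodic : ∀ t, F (t + L) = F t
  simple : ∀ s t, F s = F t → ∃ k : ℤ, s - t = k * L
  range_eq : Set.range F = MulAction.fixedPoints G M
  geodesic : ∃ ε > 0, ∀ s t, |s - t| ≤ ε → dist (F s) (F t) = |s - t|

variable {E}

/-- The norm of the tangent space at `z`. -/
noncomputable def tn (z : M) (v : E) : ℝ := @norm (TangentSpace 𝓘(ℝ, E) z) _ v

/-- The inner product of the tangent space at `z`. -/
noncomputable def tin (z : M) (v w : E) : ℝ := @inner ℝ (TangentSpace 𝓘(ℝ, E) z) _ v w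

/-- An ultrafilter of small positive numbers. -/
noncomputable def UF : Filter ℝ := (Ultrafilter.of (𝓝[>] (0 : ℝ)) : Ultrafilter ℝ)

/-- `v` is the limit direction at `z` of the curve `c`, along the ultrafilter `UF`. -/
def LimDir (z : M) (c : ℝ → M) (v : E) : Prop :=
  Tendsto (fun s : ℝ => s⁻¹ • (extChartAt 𝓘(ℝ, E) z (c s) - extChartAt 𝓘(ℝ, E) z z)) UF (𝓝 v)

end Riemannian

/-- A local action of the group `G` near the fixed point `y₀` of a normed space, with its
derivatives. -/
structure LocAct {G : Type*} [Group G] [TopologicalSpace G] {E : Type*} [NormedAddCommGroup E]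
    [NormedSpace ℝ E] (y₀ : E) (V : Set E) (Ψ : G → E → E) (D : G → E → E →L[ℝ] E) : Prop where
  isOpen : IsOpen V
  mem : y₀ ∈ V
  fix : ∀ g, Ψ g y₀ = y₀
  cont : ContinuousOn (fun p : G × E => Ψ p.1 p.2) (Set.univ ×ˢ V)
  contD : ContinuousOn (fun p : G × E => D p.1 p.2) (Set.univ ×ˢ V)
  deriv : ∀ g, ∀ y ∈ V, HasFDerivAt (Ψ g) (D g y) y
  mul : ∀ g h, ∀ y ∈ V, Ψ h y ∈ V → Ψ (g * h) y = Ψ g (Ψ h y)
  one : ∀ y ∈ V, Ψ 1 y = y

end Pool.Agent.H48.FXD
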