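import Pool.Agent.H48.FXD.Defs

/-!
# MP_ea41d9_gt: the fixed tangent vectors are tangent to the fixed circle
-/

open Bundle Manifold Filter Set
open scoped ContDiff Topology

namespace Pool.Agent.H48.FXD

variable {E : Type*} [NormedAddCommGroup E] [NormedSpace ℝ E] [FiniteDimensional ℝ E]
  {M : Type*} [MetricSpace M] [ChartedSpace E M] [IsManifold 𝓘(ℝ, E) ∞ M]
  [RiemannianBundle (fun x : M => TangentSpace 𝓘(ℝ, E) x)]
  {G : Type*} [Group G] [MulAction G M] {F : ℝ → M} {L : ℝ}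

/-- Near a point of the curve the parameter is near. -/
theorem FixedCircle.param (hF : FixedCircle E G F L) (t : ℝ) {δ : ℝ} (hδ : 0 < δ) :
    ∀ᶠ x in 𝓝 (F t), ∀ r ∈ Ico (t - L / 2) (t - L / 2 + L), F r = x → |r - t| < δ := by
  have hL := hF.length_pos
  have hcont : Continuous F := hF.smooth.continuous
  have hK : IsCompact (Icc (t - L / 2) (t - L / 2 + L) ∩ {r | δ ≤ |r - t|}) := by
    apply isCompact_Icc.inter_right
    exact isClosed_le continuous_const (by fun_prop)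
  have hcl : IsClosed (F '' (Icc (t - L / 2) (t - L / 2 + L) ∩ {r | δ ≤ |r - t|})) :=
    (hK.image hcont).isClosed
  have hnot : F t ∉ F '' (Icc (t - L / 2) (t - L / 2 + L) ∩ {r | δ ≤ |r - t|}) := by
    rintro ⟨r, ⟨hr1, hr2⟩, hFr⟩
    obtain ⟨k, hk⟩ := hF.simple r t hFr
    have hk1 : |(k : ℝ)| ≤ 1 / 2 := by
      have h1 : |r - t| ≤ L / 2 := abs_le.2 ⟨by linarith only [hr1.1], by linarith only [hr1.2]⟩
      rw [hk, abs_mul, abs_of_pos hL] at h1
      by_contra hc
      have hc' : 1 / 2 < |(k : ℝ)| := lt_of_not_ge hc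
      nlinarith only [h1, hc', hL]
    have hk0 : k = 0 := by
      by_contra hc
      have h1 : (1 : ℤ) ≤ |k| := Int.one_le_abs hc
      have h2 : (1 : ℝ) ≤ |(k : ℝ)| := by exact_mod_cast h1
      linarith only [h2, hk1]
    have hr2' : δ ≤ |r - t| := hr2
    rw [hk, hk0] at hr2'
    simp only [Int.cast_zero, zero_mul, abs_zero] at hr2'
    linarith only [hr2', hδ]
  filter_upwards [hcl.isOpen_compl.mem_nhds hnot] with x hx r hr hFr
  by_contra hc
  exact hx ⟨r, ⟨⟨hr.1, hr.2.le⟩, le_of_not_gt hc⟩, hFr⟩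

/-- A vector which is the velocity of a curve of fixed points is tangent to the circle. -/
theorem FixedCircle.tangent (hF : FixedCircle E G F L) (t : ℝ) {u v : E} (hu0 : u ≠ 0)
    (hu : HasDerivAt (fun s => extChartAt 𝓘(ℝ, E) (F t) (F s)) u t)
    {σ : ℝ → M} (h0 : σ 0 = F t) (hc : ContinuousAt σ 0)
    (hσ : HasDerivAt (fun s => extChartAt 𝓘(ℝ, E) (F t) (σ s)) v 0)
    (hfix : ∀ᶠ s in 𝓝 (0 : ℝ), ∀ g : G, g • σ s = σ s) : ∃ r : ℝ, v = r • u := by
  have hL := hF.length_pos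
  have hper : Function.Periodic F L := hF.periodic
  -- the parameters
  have hex : ∀ s : ℝ, ∃ r ∈ Ico (t - L / 2) (t - L / 2 + L),
      (∀ g : G, g • σ s = σ s) → F r = σ s := by
    intro s
    by_cases h : ∀ g : G, g • σ s = σ s
    · have h1 : σ s ∈ range F := by
        rw [hF.range_eq]
        exact h
      obtain ⟨r0, hr0⟩ := h1
      obtain ⟨r, hr, hFr⟩ := hper.exists_mem_Ico hL r0 (t - L / 2)
      exact ⟨r, hr, fun _ => by rw [← hFr, hr0]⟩
    · exact ⟨t - L / 2, ⟨le_rfl, by linarith only [hL]⟩, fun h' => absurd h' h⟩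
  choose τ hτ hτF using hex
  have hFτ : ∀ᶠ s in 𝓝 (0 : ℝ), F (τ s) = σ s := by
    filter_upwards [hfix] with s hs
    exact hτF s hs
  have hlim : Tendsto τ (𝓝 0) (𝓝 t) := by
    rw [Metric.tendsto_nhds]
    intro δ hδ
    have h1 := hF.param t hδ
    have h2 : Tendsto σ (𝓝 0) (𝓝 (F t)) := by
      rw [← h0]
      exact hc
    filter_upwards [h2 h1, hFτ] with s hs hs2
    rw [Real.dist_eq]
    exact hs (τ s) (hτ s) hs2
  obtain ⟨A, hA⟩ : ∃ A : ℝ → E, A = fun s => extChartAt 𝓘(ℝ, E) (F t) (σ s) -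
    extChartAt 𝓘(ℝ, E) (F t) (F t) := ⟨_, rfl⟩
  have e1 : (fun s => A s - s • v) =o[𝓝 0] fun s => s := by
    have h1 := hasDerivAt_iff_isLittleO.1 hσ
    simp only [sub_zero, h0] at h1
    rw [hA]
    exact h1
  have e2 : (fun s => A s - (τ s - t) • u) =o[𝓝 0] fun s => τ s - t := by
    have h1 := (hasDerivAt_iff_isLittleO.1 hu).comp_tendsto hlim
    refine h1.congr' ?_ EventuallyEq.rfl
    filter_upwards [hFτ] with s hs
    simp only [Function.comp_apply, hs, hA]
  have e3 : (fun s => τ s - t) =O[𝓝 0] A := by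
    have hun : 0 < ‖u‖ := norm_pos_iff.2 hu0
    have h1 := (Asymptotics.isLittleO_iff.1 e2) (half_pos hun)
    refine Asymptotics.IsBigO.of_bound (2 / ‖u‖) ?_
    filter_upwards [h1] with s hs
    have h2 : ‖(τ s - t) • u‖ ≤ ‖A s‖ + ‖A s - (τ s - t) • u‖ := by
      have := norm_sub_norm_le ((τ s - t) • u) (A s)
      rw [norm_sub_rev] at this
      linarith only [this]
    rw [norm_smul] at h2
    have h3 : ‖τ s - t‖ * ‖u‖ ≤ 2 * ‖A s‖ := by linarith only [h2, hs]
    rw [div_mul_eq_mul_div, le_div_iff₀ hun]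
    exact h3
  have e4 : A =O[𝓝 0] fun s : ℝ => s := by
    have h1 : (fun s : ℝ => s • v) =O[𝓝 0] fun s : ℝ => s :=
      Asymptotics.IsBigO.of_bound ‖v‖ (Eventually.of_forall fun s => by
        rw [norm_smul, mul_comm])
    have h2 := e1.isBigO.add h1
    simpa using h2
  have e5 : (fun s => (τ s - t) • u - s • v) =o[𝓝 0] fun s : ℝ => s := by
    have h1 := e1.sub (e2.trans_isBigO (e3.trans e4))
    refine h1.congr_left fun s => ?_
    abel
  have e6 : Tendsto (fun s : ℝ => ((τ s - t) / s) • u) (𝓝[≠] 0) (𝓝 v) := by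
    have h1 : Tendsto (fun s : ℝ => s⁻¹ • ((τ s - t) • u - s • v)) (𝓝[≠] 0) (𝓝 0) :=
      (e5.mono nhdsWithin_le_nhds).tendsto_inv_smul_nhds_zero
    have h2 := h1.add_const v
    rw [zero_add] at h2
    refine h2.congr' ?_
    filter_upwards [self_mem_nhdsWithin] with s hs
    have hs' : s ≠ 0 := hs
    rw [smul_sub, smul_smul, smul_smul, inv_mul_cancel₀ hs', one_smul, sub_add_cancel,
      div_eq_inv_mul]
  have hcl : IsClosed ((Submodule.span ℝ {u} : Submodule ℝ E) : Set E) :=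
    Submodule.closed_of_finiteDimensional _
  have hmem : v ∈ ((Submodule.span ℝ {u} : Submodule ℝ E) : Set E) :=
    hcl.mem_of_tendsto e6 (Eventually.of_forall fun s =>
      Submodule.smul_mem _ _ (Submodule.mem_span_singleton_self u))
  obtain ⟨r, hr⟩ := Submodule.mem_span_singleton.1 hmem
  exact ⟨r, hr.symm⟩

end Pool.Agent.H48.FXD
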