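import Pool.Agent.H48.FXD.HIN
import Pool.Agent.H48.FXD.TAN
import Pool.Agent.H48.FXC.FIN
import Pool.Agent.H48.FXC.AVG
import Pool.Agent.H7.FXD.DMP
import Pool.Agent.H7.FXD.LDG
import Pool.Agent.H99.FXD.LDF

/-!
# MP_ea41d9_gt: the kernel of a fixed circle
-/

open Bundle Manifold Filter Set
open scoped ContDiff Topology

namespace Pool.Agent.H48.FXD

variable {E : Type*} [NormedAddCommGroup E] [NormedSpace ℝ E] [FiniteDimensional ℝ E]
  {M : Type*} [MetricSpace M] [ChartedSpace E M] [IsManifold 𝓘(ℝ, E) ∞ M]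
  [RiemannianBundle (fun x : M => TangentSpace 𝓘(ℝ, E) x)]
  [IsContMDiffRiemannianBundle 𝓘(ℝ, E) ∞ E (fun x : M => TangentSpace 𝓘(ℝ, E) x)]
  [IsRiemannianManifold 𝓘(ℝ, E) M]
  {G : Type*} [Group G] [TopologicalSpace G] [MulAction G M] {F : ℝ → M} {L : ℝ}

omit [FiniteDimensional ℝ E] [IsManifold 𝓘(ℝ, E) ∞ M]
  [IsContMDiffRiemannianBundle 𝓘(ℝ, E) ∞ E (fun x : M => TangentSpace 𝓘(ℝ, E) x)]
  [IsRiemannianManifold 𝓘(ℝ, E) M] in
theorem tin_congr {x y : M} (h : x = y) (v w : E) : tin x v w = tin y v w := by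
  rw [h]

omit [FiniteDimensional ℝ E] [IsManifold 𝓘(ℝ, E) ∞ M]
  [IsContMDiffRiemannianBundle 𝓘(ℝ, E) ∞ E (fun x : M => TangentSpace 𝓘(ℝ, E) x)]
  [IsRiemannianManifold 𝓘(ℝ, E) M] in
theorem tn_sq (z : M) (v : E) : tn z v ^ 2 = tin z v v := by
  have h := @real_inner_self_eq_norm_sq (TangentSpace 𝓘(ℝ, E) z) _ _ v
  exact h.symm

omit [FiniteDimensional ℝ E] [IsManifold 𝓘(ℝ, E) ∞ M]
  [IsContMDiffRiemannianBundle 𝓘(ℝ, E) ∞ E (fun x : M => TangentSpace 𝓘(ℝ, E) x)]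
  [IsRiemannianManifold 𝓘(ℝ, E) M] in
theorem tin_neg_right (z : M) (v w : E) : tin z v (-w) = -tin z v w := by
  have h := @inner_neg_right ℝ (TangentSpace 𝓘(ℝ, E) z) _ _ _ v w
  exact h

omit [FiniteDimensional ℝ E] [IsManifold 𝓘(ℝ, E) ∞ M]
  [IsContMDiffRiemannianBundle 𝓘(ℝ, E) ∞ E (fun x : M => TangentSpace 𝓘(ℝ, E) x)]
  [IsRiemannianManifold 𝓘(ℝ, E) M] in
theorem tin_comm (z : M) (v w : E) : tin z v w = tin z w v := by
  have h := @real_inner_comm (TangentSpace 𝓘(ℝ, E) z) _ _ w v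
  exact h

omit [FiniteDimensional ℝ E] [IsManifold 𝓘(ℝ, E) ∞ M]
  [IsContMDiffRiemannianBundle 𝓘(ℝ, E) ∞ E (fun x : M => TangentSpace 𝓘(ℝ, E) x)]
  [IsRiemannianManifold 𝓘(ℝ, E) M] in
theorem tn_neg (z : M) (v : E) : tn z (-v) = tn z v := by
  have h := @norm_neg (TangentSpace 𝓘(ℝ, E) z) _ v
  exact h

/-- The differential of `g` at `z`, as a map of the model space. -/
noncomputable def dg (g : G) (z : M) : E →L[ℝ] E :=
  mfderiv 𝓘(ℝ, E) 𝓘(ℝ, E) (fun y : M => g • y) z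

/-- The velocity of the curve. -/
noncomputable def vel (E : Type*) [NormedAddCommGroup E] [NormedSpace ℝ E] [ChartedSpace E M]
    (F : ℝ → M) (t : ℝ) : E :=
  mfderiv 𝓘(ℝ, ℝ) 𝓘(ℝ, E) F t (1 : ℝ)

omit [FiniteDimensional ℝ E]
  [IsContMDiffRiemannianBundle 𝓘(ℝ, E) ∞ E (fun x : M => TangentSpace 𝓘(ℝ, E) x)]
  [IsRiemannianManifold 𝓘(ℝ, E) M] in
theorem dg_tin (hact : IsometricAction E M G) {g : G} {z : M} (hz : g • z = z) (v w : E) :
    tin z (dg g z v) (dg g z w) = tin z v w := by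
  have h1 : tin (g • z) (dg g z v : E) (dg g z w) = tin z v w := hact.inner_map g z v w
  rw [← h1]
  exact tin_congr hz.symm _ _

omit [FiniteDimensional ℝ E]
  [IsContMDiffRiemannianBundle 𝓘(ℝ, E) ∞ E (fun x : M => TangentSpace 𝓘(ℝ, E) x)]
  [IsRiemannianManifold 𝓘(ℝ, E) M] in
theorem dg_tn (hact : IsometricAction E M G) {g : G} {z : M} (hz : g • z = z) (v : E) :
    tn z (dg g z v) = tn z v := by
  have h1 := dg_tin hact hz v v
  rw [← tn_sq, ← tn_sq] at h1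
  exact (pow_left_inj₀ (tn_nonneg z _) (tn_nonneg z _) two_ne_zero).1 h1

omit [FiniteDimensional ℝ E]
  [IsContMDiffRiemannianBundle 𝓘(ℝ, E) ∞ E (fun x : M => TangentSpace 𝓘(ℝ, E) x)]
  [IsRiemannianManifold 𝓘(ℝ, E) M] in
theorem hasMFDerivAt_dg (hact : IsometricAction E M G) (g : G) (z : M) :
    HasMFDerivAt 𝓘(ℝ, E) 𝓘(ℝ, E) (fun y : M => g • y) z (dg g z : E →L[ℝ] E) :=
  ((hact.smooth g).mdifferentiableAt (by simp)).hasMFDerivAt

omit [FiniteDimensional ℝ E] [IsManifold 𝓘(ℝ, E) ∞ M]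
  [RiemannianBundle (fun x : M => TangentSpace 𝓘(ℝ, E) x)]
  [IsContMDiffRiemannianBundle 𝓘(ℝ, E) ∞ E (fun x : M => TangentSpace 𝓘(ℝ, E) x)]
  [IsRiemannianManifold 𝓘(ℝ, E) M] in
theorem hasMFDerivAt_point {f : M → M} {x y : M} (h : x = y) (A : E →L[ℝ] E)
    (hf : HasMFDerivAt 𝓘(ℝ, E) 𝓘(ℝ, E) f x A) : HasMFDerivAt 𝓘(ℝ, E) 𝓘(ℝ, E) f y A := by
  subst h
  exact hf

theorem dg_mul (hact : IsometricAction E M G) {z : M} (hz : ∀ g : G, g • z = z) (g h : G)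
    (v : E) : dg (g * h) z v = dg g z (dg (E := E) h z v) := by
  have h1 := hasMFDerivAt_dg hact h z
  have h2 := hasMFDerivAt_point (hz h).symm _ (hasMFDerivAt_dg hact g z)
  have h3 := h2.comp z h1
  have h4 : ((fun y : M => g • y) ∘ fun y : M => h • y) = fun y : M => (g * h) • y := by
    funext y
    simp only [Function.comp_apply, mul_smul]
  rw [h4] at h3
  have h6 := hasMFDerivAt_unique (hasMFDerivAt_dg hact (g * h) z) h3
  exact congrArg (fun A : E →L[ℝ] E => A v) h6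

end Pool.Agent.H48.FXD
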