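import Pool.Agent.H48.FXD.GE3

/-!
# MP_ea41d9_gt: the kernel of a fixed circle, assembly
-/

open Bundle Manifold Filter Set
open scoped ContDiff Topology

namespace Pool.Agent.H48.FXD

variable {E : Type*} [NormedAddCommGroup E] [NormedSpace ℝ E] [FiniteDimensional ℝ E]
  {M : Type*} [MetricSpace M] [ChartedSpace E M] [IsManifold 𝓘(ℝ, E) ∞ M]
  [RiemannianBundle (fun x : M => TangentSpace 𝓘(ℝ, E) x)]
  [IsContMDiffRiemannianBundle 𝓘(ℝ, E) ∞ E (fun x : M => TangentSpace 𝓘(ℝ, E) x)]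
  [IsRiemannianManifold 𝓘(ℝ, E) M]
  {G : Type*} [Group G] [TopologicalSpace G] [MulAction G M] {F : ℝ → M} {L : ℝ}

theorem FixedCircle.smul_eq (hF : FixedCircle E G F L) (g : G) (t : ℝ) : g • F t = F t := by
  have h : F t ∈ MulAction.fixedPoints G M := by
    rw [← hF.range_eq]
    exact ⟨t, rfl⟩
  exact h g

theorem dg_vel (hact : IsometricAction E M G) (hF : FixedCircle E G F L) (t : ℝ) (g : G) :
    dg g (F t) (vel E F t) = vel E F t := by
  have hd : HasMFDerivAt 𝓘(ℝ, ℝ) 𝓘(ℝ, E) F t (mfderiv 𝓘(ℝ, ℝ) 𝓘(ℝ, E) F t) :=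
    (hF.smooth.mdifferentiableAt (by simp)).hasMFDerivAt
  have h1 := (hasMFDerivAt_dg hact g (F t)).comp t hd
  have h4 : ((fun y : M => g • y) ∘ F) = F := by
    funext s
    exact hF.smul_eq g s
  rw [h4] at h1
  have h6 := hasMFDerivAt_unique hd h1
  exact (congrArg (fun A : ℝ →L[ℝ] E => A 1) h6).symm

theorem tn_vel (hF : FixedCircle E G F L) (t : ℝ) : tn (F t) (vel E F t) = 1 :=
  hF.unit_speed t

theorem limDir_forward (hF : FixedCircle E G F L) (t : ℝ) :
    LimDir (F t) (fun s => F (t + s)) (vel E F t) := by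
  have h1 := Pool.Agent.H99.FXD.pf_LDF hF.smooth t
  have h2 := h1.tendsto_slope_zero
  have h3 : Tendsto (fun s : ℝ => s⁻¹ • (extChartAt 𝓘(ℝ, E) (F t) (F (t + s)) -
      extChartAt 𝓘(ℝ, E) (F t) (F t))) UF (𝓝 (vel E F t)) :=
    h2.mono_left (UF_le.trans (nhdsWithin_mono _ fun s hs => (ne_of_gt hs)))
  exact h3

theorem limDir_backward (hF : FixedCircle E G F L) (t : ℝ) :
    LimDir (F t) (fun s => F (t - s)) (-vel E F t) := by
  have h1 := Pool.Agent.H99.FXD.pf_LDF hF.smooth t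
  have h0 : HasDerivAt (fun s => extChartAt 𝓘(ℝ, E) (F t) (F (t - s)))
      ((-1 : ℝ) • vel E F t) 0 := by
    have h2 : HasDerivAt (fun s : ℝ => t - s) (-1) 0 := (hasDerivAt_id (0 : ℝ)).const_sub t
    have h3 : HasDerivAt (fun s => extChartAt 𝓘(ℝ, E) (F t) (F s)) (vel E F t) (t - 0) := by
      rw [sub_zero]
      exact h1
    exact h3.scomp (0 : ℝ) h2
  have h2 := h0.tendsto_slope_zero
  have h3 : Tendsto (fun s : ℝ => s⁻¹ • (extChartAt 𝓘(ℝ, E) (F t) (F (t - (0 + s))) -
      extChartAt 𝓘(ℝ, E) (F t) (F (t - 0)))) UF (𝓝 ((-1 : ℝ) • vel E F t)) :=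
    h2.mono_left (UF_le.trans (nhdsWithin_mono _ fun s hs => (ne_of_gt hs)))
  simp only [zero_add, sub_zero, neg_smul, one_smul] at h3
  exact h3

theorem minGeo_forward (hF : FixedCircle E G F L) {ε : ℝ}
    (hgeo : ∀ s t, |s - t| ≤ ε → dist (F s) (F t) = |s - t|) (t : ℝ) {h : ℝ} (h0 : 0 ≤ h)
    (hh : h ≤ ε) : dist (F t) (F (t + h)) = h ∧
      MinGeo (fun r => F (t + r)) (F t) (F (t + h)) := by
  have hd : dist (F t) (F (t + h)) = h := by
    rw [hgeo t (t + h) (by rwa [sub_add_cancel_left, abs_neg, abs_of_nonneg h0]),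
      sub_add_cancel_left, abs_neg, abs_of_nonneg h0]
  refine ⟨hd, ⟨by simp only [add_zero], by rw [hd], fun s hs r hr => ?_⟩⟩
  rw [hd] at hs hr
  rw [hgeo _ _ (by
    rw [add_sub_add_left_eq_sub, abs_le]
    exact ⟨by linarith only [hs.1, hr.2, hh], by linarith only [hs.2, hr.1, hh]⟩),
    add_sub_add_left_eq_sub]

theorem minGeo_backward (hF : FixedCircle E G F L) {ε : ℝ}
    (hgeo : ∀ s t, |s - t| ≤ ε → dist (F s) (F t) = |s - t|) (t : ℝ) {h : ℝ} (h0 : 0 ≤ h)
    (hh : h ≤ ε) : dist (F t) (F (t - h)) = h ∧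
      MinGeo (fun r => F (t - r)) (F t) (F (t - h)) := by
  have hd : dist (F t) (F (t - h)) = h := by
    rw [hgeo t (t - h) (by rwa [sub_sub_cancel, abs_of_nonneg h0]), sub_sub_cancel,
      abs_of_nonneg h0]
  refine ⟨hd, ⟨by simp only [sub_zero], by rw [hd], fun s hs r hr => ?_⟩⟩
  rw [hd] at hs hr
  have e : t - s - (t - r) = -(s - r) := by ring
  rw [hgeo _ _ (by
    rw [e, abs_neg, abs_le]
    exact ⟨by linarith only [hs.1, hr.2, hh], by linarith only [hs.2, hr.1, hh]⟩),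
    e, abs_neg]

theorem lip_of_local {F : ℝ → M} {ε : ℝ} (hε : 0 < ε)
    (hgeo : ∀ s t, |s - t| ≤ ε → dist (F s) (F t) = |s - t|) (s t : ℝ) :
    dist (F s) (F t) ≤ |s - t| := by
  have key : ∀ n : ℕ, ∀ s t : ℝ, |s - t| ≤ (n + 1) * ε → dist (F s) (F t) ≤ |s - t| := by
    intro n
    induction n with
    | zero =>
      intro s t h
      exact (hgeo s t (by simpa using h)).le
    | succ n ih =>
      intro s t h
      have hn : (0 : ℝ) < n + 2 := by positivity
      push_cast at h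
      have h1 : |s - (s + (t - s) / (n + 2))| = |s - t| / (n + 2) := by
        rw [show s - (s + (t - s) / (n + 2)) = (s - t) / (n + 2) by ring, abs_div,
          abs_of_pos hn]
      have h2 : |s + (t - s) / (n + 2) - t| = |s - t| * ((n + 1) / (n + 2)) := by
        rw [show s + (t - s) / (n + 2) - t = (s - t) * ((n + 1) / (n + 2)) by
          field_simp
          ring, abs_mul, abs_of_nonneg (a := ((n : ℝ) + 1) / (n + 2)) (by positivity)]
      have h3 : |s - t| / (n + 2) ≤ ε := by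
        rw [div_le_iff₀ hn]
        linarith only [h]
      have h4 : |s - t| * ((n + 1) / (n + 2)) ≤ (n + 1) * ε := by
        have : |s - t| * ((n + 1) / (n + 2)) = (n + 1) * (|s - t| / (n + 2)) := by ring
        rw [this]
        exact mul_le_mul_of_nonneg_left h3 (by positivity)
      have h5 := hgeo s (s + (t - s) / (n + 2)) (by rw [h1]; exact h3)
      have h6 := ih (s + (t - s) / (n + 2)) t (by rw [h2]; exact h4)
      have h7 := dist_triangle (F s) (F (s + (t - s) / (n + 2))) (F t)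
      rw [h5, h1] at h7
      rw [h2] at h6
      have h8 : |s - t| / (n + 2) + |s - t| * ((n + 1) / (n + 2)) = |s - t| := by
        field_simp
        ring
      linarith only [h6, h7, h8]
  obtain ⟨n, hn⟩ := exists_nat_ge (|s - t| / ε)
  apply key n
  rw [div_le_iff₀ hε] at hn
  nlinarith only [hn, hε]

end Pool.Agent.H48.FXD
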