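import Pool.Agent.H48.FXD.GE4
import Pool.Agent.H79.FXD.DUB
import Pool.Agent.H15.FXD.DLB

/-!
# MP_ea41d9_gt: the kernel of a fixed circle, the theorem
-/

open Bundle Manifold Filter Set
open scoped ContDiff Topology

namespace Pool.Agent.H48.FXD

variable {E : Type*} [NormedAddCommGroup E] [NormedSpace ℝ E] [FiniteDimensional ℝ E]
  {M : Type*} [MetricSpace M] [ChartedSpace E M] [IsManifold 𝓘(ℝ, E) ∞ M]
  [RiemannianBundle (fun x : M => TangentSpace 𝓘(ℝ, E) x)]
  [IsContMDiffRiemannianBundle 𝓘(ℝ, E) ∞ E (fun x : M => TangentSpace 𝓘(ℝ, E) x)]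
  [IsRiemannianManifold 𝓘(ℝ, E) M]
  {G : Type*} [Group G] [TopologicalSpace G] [MulAction G M] {F : ℝ → M} {L : ℝ}

/-- The averaged inequality in the tangent space. -/
theorem averaged (hact : IsometricAction E M G) (hF : FixedCircle E G F L) (t : ℝ)
    (hfix : ∀ v : E, (∀ g : G, dg g (F t) v = v) → ∃ r : ℝ, v = r • vel E F t)
    (v w : E) (A B C : ℝ) (h : ∀ g : G, A + B * tin (F t) (dg g (F t) v) w ≤ C) :
    A + B * (tin (F t) v (vel E F t) * tin (F t) (vel E F t) w) ≤ C := by
  have hfin : FiniteDimensional ℝ (TangentSpace 𝓘(ℝ, E) (F t)) := inferInstanceAs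
    (FiniteDimensional ℝ E)
  have hz : ∀ g : G, g • F t = F t := fun g => hF.smul_eq g t
  have h1 : tin (F t) (vel E F t) (vel E F t) = 1 := by
    rw [← tn_sq, tn_vel hF t, one_pow]
  exact Pool.Agent.H48.FXC.average (W := TangentSpace 𝓘(ℝ, E) (F t)) (G := G)
    (fun g => dg (E := E) g (F t)) (fun g k v => dg_mul (E := E) hact hz g k v)
    (fun g v w => dg_tin (E := E) hact (hz g) v w) (u := vel E F t) h1
    (fun g => dg_vel (E := E) hact hF t g) hfix v w A B C h

theorem curveKer (hM : CurvGeOne M) (hact : IsometricAction E M G)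
    (hF : FixedCircle E G F L)
    (hfix : ∀ (t : ℝ) (v : E), (∀ g : G, dg g (F t) v = v) → ∃ r : ℝ, v = r • vel E F t) :
    Pool.Agent.H48.FXC.CurveKer F L := by
  have hDLB : ∀ z : M, ∀ r : ℝ, 1 < r → ∀ᶠ x in 𝓝 z,
      tn z (extChartAt 𝓘(ℝ, E) z x - extChartAt 𝓘(ℝ, E) z z) ≤ r * dist z x :=
    fun z r hr => Pool.Agent.H15.FXD.pf_DLB z hr
  have hDUB : ∀ z : M, ∀ r : ℝ, 1 < r → ∀ᶠ p : M × M in 𝓝 (z, z),
      dist p.1 p.2 ≤ r * tn z (extChartAt 𝓘(ℝ, E) z p.1 - extChartAt 𝓘(ℝ, E) z p.2) :=
    fun z r hr => Pool.Agent.H79.FXD.pf_DUB z hr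
  obtain ⟨ε, hε, hgeo⟩ := hF.geodesic
  refine ⟨fun s t => hM.diam_le _ _, hF.periodic, ?_⟩
  -- geodesics and their limit directions
  have hex : ∀ z x : ℝ, ∃ (c : ℝ → M) (v : E), MinGeo c (F z) (F x) ∧
      (F z ≠ F x → LimDir (F z) c v ∧ tn (F z) v ≤ 1) := by
    intro z x
    obtain ⟨c, hc⟩ := hM.geodesic (F z) (F x)
    by_cases h : F z = F x
    · exact ⟨c, 0, hc, fun h' => absurd h h'⟩
    · obtain ⟨v, hv⟩ := exists_limDir hDLB hc h
      exact ⟨c, v, hc, fun _ => hv⟩
  choose c v hcv using hex
  have hfor : ∀ (z h : ℝ), 0 < h → h ≤ ε → F z ≠ F (z + h) := by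
    intro z h h0 hh he
    have h1 := (minGeo_forward hF hgeo z h0.le hh).1
    rw [← he, dist_self] at h1
    exact h0.ne h1
  have hback : ∀ (z h : ℝ), 0 < h → h ≤ ε → F z ≠ F (z - h) := by
    intro z h h0 hh he
    have h1 := (minGeo_backward hF hgeo z h0.le hh).1
    rw [← he, dist_self] at h1
    exact h0.ne h1
  refine ⟨fun z x => Real.sin (dist (F z) (F x)) * tin (F z) (v z x) (vel E F z), ε, ?_⟩
  exact {
    Lpos := hF.length_pos
    epos := hε
    symm := fun s t => by rw [dist_comm]
    per := fun s t => by rw [hF.periodic]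
    loc := fun s t h => by rw [hgeo s t h, Real.cos_abs]
    one := fun s t h => by
      have h1 : dist (F s) (F t) = 0 := by
        have h2 := hM.diam_le (F s) (F t)
        have h3 : (0 : ℝ) ≤ dist (F s) (F t) := dist_nonneg
        have h4 := Real.arccos_cos h3 h2
        rw [h, Real.arccos_one] at h4
        exact h4.symm
      exact hF.simple s t (dist_eq_zero.1 h1)
    lip := fun s t t' => by
      refine (Real.abs_cos_sub_cos_le _ _).trans ?_
      have h1 := lip_of_local hε hgeo t t'
      have h2 : |dist (F s) (F t) - dist (F s) (F t')| ≤ dist (F t) (F t') := by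
        rw [dist_comm (F s) (F t), dist_comm (F s) (F t')]
        exact abs_dist_sub_le _ _ _
      exact h2.trans h1
    supp := fun x z h hh => by
      by_cases hzx : F z = F x
      · rw [← hzx, dist_self, Real.sin_zero, zero_mul, zero_mul, add_zero, Real.cos_zero,
          one_mul, hgeo z (z + h) (by rwa [sub_add_cancel_left, abs_neg]),
          sub_add_cancel_left, abs_neg, Real.cos_abs]
      · obtain ⟨hv1, hv2⟩ := (hcv z x).2 hzx
        rcases lt_trichotomy h 0 with h0 | h0 | h0
        · have hh' : -h ≤ ε := (neg_le_abs h).trans hh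
          obtain ⟨hd, hm⟩ := minGeo_backward hF hgeo z (h := -h) (by linarith only [h0]) hh'
          have h1 := hinge_lim hM hDUB (hcv z x).1 hm hzx
            (hback z (-h) (by linarith only [h0]) hh') hv1 (limDir_backward hF z) hv2
            (by rw [tn_neg, tn_vel hF z])
          rw [hd, Real.cos_neg, Real.sin_neg, tin_neg_right, sub_neg_eq_add] at h1
          rw [dist_comm (F x) (F z)]
          linarith only [h1]
        · rw [h0, Real.cos_zero, Real.sin_zero, mul_zero, mul_one, add_zero, add_zero]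
        · have hh' : h ≤ ε := (le_abs_self h).trans hh
          obtain ⟨hd, hm⟩ := minGeo_forward hF hgeo z (h := h) h0.le hh'
          have h1 := hinge_lim hM hDUB (hcv z x).1 hm hzx (hfor z h h0 hh') hv1
            (limDir_forward hF z) hv2 (by rw [tn_vel hF z])
          rw [hd] at h1
          rw [dist_comm (F x) (F z)]
          linarith only [h1]
    hinge := fun x y z => by
      by_cases hzx : F z = F x
      · rw [← hzx, dist_self, Real.sin_zero, zero_mul, zero_mul, add_zero, Real.cos_zero,
          one_mul, dist_comm]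
      · by_cases hzy : F z = F y
        · rw [← hzy, dist_self, Real.sin_zero, zero_mul, mul_zero, add_zero, Real.cos_zero,
            mul_one]
        · obtain ⟨hv1, hv2⟩ := (hcv z x).2 hzx
          obtain ⟨hw1, hw2⟩ := (hcv z y).2 hzy
          have h1 := averaged hact hF z (hfix z) (v z x) (v z y)
            (Real.cos (dist (F z) (F x)) * Real.cos (dist (F z) (F y)))
            (Real.sin (dist (F z) (F x)) * Real.sin (dist (F z) (F y)))
            (Real.cos (dist (F x) (F y))) (fun g => by
              have hgz : g • F z = F z := hF.smul_eq g z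
              have hm : MinGeo (fun s => g • c z x s) (F z) (F x) := by
                refine ⟨?_, ?_, fun s hs r hr => ?_⟩
                · rw [(hcv z x).1.start, hgz]
                · rw [(hcv z x).1.finish, hF.smul_eq g x]
                · rw [Pool.Agent.H7.FXD.pf_DMP hact]
                  exact (hcv z x).1.isom s hs r hr
              have hl : LimDir (F z) (fun s => g • c z x s) (dg g (F z) (v z x)) :=
                Pool.Agent.H7.FXD.pf_LDG (hact.smooth g) hgz ((hcv z x).1.tendsto hzx) hv1
              exact hinge_lim hM hDUB hm (hcv z y).1 hzx hzy hl hw1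
                (by rw [dg_tn hact hgz]; exact hv2) hw2)
          rw [tin_comm (F z) (vel E F z) (v z y)] at h1
          rw [dist_comm (F x) (F z), dist_comm (F y) (F z)]
          linarith only [h1] }

end Pool.Agent.H48.FXD
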