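import Pool.Agent.H48.FXD.HNG

/-!
# MP_ea41d9_gt: limit directions and the hinge inequality with the inner product
-/

open Bundle Manifold Filter Set
open scoped ContDiff Topology

namespace Pool.Agent.H48.FXD

section UltraFilter

theorem UF_neBot : UF.NeBot := by
  unfold UF
  exact Ultrafilter.neBot _

theorem UF_le : UF ≤ 𝓝[>] (0 : ℝ) := by
  unfold UF
  exact Ultrafilter.of_le _

end UltraFilter

variable {E : Type*} [NormedAddCommGroup E] [NormedSpace ℝ E] [FiniteDimensional ℝ E]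
  {M : Type*} [MetricSpace M] [ChartedSpace E M] [IsManifold 𝓘(ℝ, E) ∞ M]
  [RiemannianBundle (fun x : M => TangentSpace 𝓘(ℝ, E) x)]
  {c d : ℝ → M} {x y z : M}

theorem MinGeo.tendsto (h : MinGeo c z x) (hx : z ≠ x) : Tendsto c (𝓝[>] 0) (𝓝 z) := by
  rw [tendsto_iff_dist_tendsto_zero]
  have h0 : 0 < dist z x := dist_pos.2 hx
  have h1 : ∀ᶠ s in 𝓝[>] (0 : ℝ), dist (c s) z = s := by
    filter_upwards [Ioc_mem_nhdsGT h0] with s hs
    rw [dist_comm]
    exact h.dist_start ⟨hs.1.le, hs.2⟩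
  refine Tendsto.congr' (EventuallyEq.symm h1) ?_
  exact tendsto_id.mono_left nhdsWithin_le_nhds

omit [FiniteDimensional ℝ E] [IsManifold 𝓘(ℝ, E) ∞ M] in
theorem tn_smul (z : M) {s : ℝ} (hs : 0 ≤ s) (v : E) : tn z (s • v) = s * tn z v := by
  have h := @norm_smul ℝ (TangentSpace 𝓘(ℝ, E) z) _ _ _ _ s v
  rw [Real.norm_eq_abs, abs_of_nonneg hs] at h
  exact h

omit [FiniteDimensional ℝ E] [IsManifold 𝓘(ℝ, E) ∞ M] in
theorem tn_nonneg (z : M) (v : E) : 0 ≤ tn z v := by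
  unfold tn
  exact norm_nonneg _

omit [FiniteDimensional ℝ E] [IsManifold 𝓘(ℝ, E) ∞ M] in
theorem tn_sub_sq (z : M) (v w : E) :
    tn z (v - w) ^ 2 = tn z v ^ 2 - 2 * tin z v w + tn z w ^ 2 := by
  have h := @norm_sub_sq_real (TangentSpace 𝓘(ℝ, E) z) _ _ v w
  exact h

omit [FiniteDimensional ℝ E] [IsManifold 𝓘(ℝ, E) ∞ M] in
theorem tn_continuous (z : M) : Continuous fun v : E => tn z v := by
  have h : Continuous fun v : TangentSpace 𝓘(ℝ, E) z => ‖v‖ := continuous_norm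
  exact h

/-- Existence of limit directions. -/
theorem exists_limDir
    (hDLB : ∀ z : M, ∀ r : ℝ, 1 < r → ∀ᶠ x in 𝓝 z,
      tn z (extChartAt 𝓘(ℝ, E) z x - extChartAt 𝓘(ℝ, E) z z) ≤ r * dist z x)
    (h : MinGeo c z x) (hx : z ≠ x) : ∃ v : E, LimDir z c v ∧ tn z v ≤ 1 := by
  have h0 : 0 < dist z x := dist_pos.2 hx
  have hbd : ∀ r : ℝ, 1 < r → ∀ᶠ s in UF,
      tn z (s⁻¹ • (extChartAt 𝓘(ℝ, E) z (c s) - extChartAt 𝓘(ℝ, E) z z)) ≤ r := by
    intro r hr
    have h1 := UF_le (Ioc_mem_nhdsGT h0)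
    have h2 := UF_le ((h.tendsto hx) (hDLB z r hr))
    filter_upwards [h1, h2] with s hs hs2
    have hs0 : 0 < s := hs.1
    rw [tn_smul z (inv_nonneg.2 hs0.le), inv_mul_le_iff₀ hs0]
    have h3 : tn z (extChartAt 𝓘(ℝ, E) z (c s) - extChartAt 𝓘(ℝ, E) z z) ≤
      r * dist z (c s) := hs2
    rw [h.dist_start ⟨hs.1.le, hs.2⟩] at h3
    linarith only [h3]
  have hfin : FiniteDimensional ℝ (TangentSpace 𝓘(ℝ, E) z) := inferInstanceAs
    (FiniteDimensional ℝ E)
  have hprop : ProperSpace (TangentSpace 𝓘(ℝ, E) z) := FiniteDimensional.proper ℝ _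
  have hcomp : IsCompact (Metric.closedBall (0 : TangentSpace 𝓘(ℝ, E) z) 2) :=
    isCompact_closedBall _ _
  obtain ⟨f, hf⟩ : ∃ f : ℝ → TangentSpace 𝓘(ℝ, E) z, f = fun s : ℝ =>
    s⁻¹ • (extChartAt 𝓘(ℝ, E) z (c s) - extChartAt 𝓘(ℝ, E) z z) := ⟨_, rfl⟩
  have hmem : ((Ultrafilter.of (𝓝[>] (0 : ℝ))).map f : Filter (TangentSpace 𝓘(ℝ, E) z)) ≤
      𝓟 (Metric.closedBall (0 : TangentSpace 𝓘(ℝ, E) z) 2) := by
    rw [le_principal_iff]
    have h3 := hbd 2 one_lt_two
    have h4 : f ⁻¹' (Metric.closedBall (0 : TangentSpace 𝓘(ℝ, E) z) 2) ∈ UF := by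
      filter_upwards [h3] with s hs
      rw [mem_preimage, mem_closedBall_zero_iff, hf]
      exact hs
    exact h4
  obtain ⟨v, -, hv⟩ := hcomp.ultrafilter_le_nhds _ hmem
  have hv' : Tendsto f UF (𝓝 v) := hv
  refine ⟨v, ?_, ?_⟩
  · rw [hf] at hv'
    exact hv'
  · have hne := UF_neBot
    apply le_of_forall_pos_le_add
    intro e he
    have h4 : Tendsto (fun s => ‖f s‖) UF (𝓝 ‖v‖) := hv'.norm
    refine le_of_tendsto (f := fun s => ‖f s‖) (x := UF) h4 ?_
    filter_upwards [hbd (1 + e) (by linarith only [he])] with s hs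
    rw [hf]
    exact hs

/-- The hinge inequality with the inner product of the limit directions. -/
theorem hinge_lim (hM : CurvGeOne M)
    (hDUB : ∀ z : M, ∀ r : ℝ, 1 < r → ∀ᶠ p : M × M in 𝓝 (z, z),
      dist p.1 p.2 ≤ r * tn z (extChartAt 𝓘(ℝ, E) z p.1 - extChartAt 𝓘(ℝ, E) z p.2))
    (hc : MinGeo c z x) (hd : MinGeo d z y) (hx : z ≠ x) (hy : z ≠ y) {v w : E}
    (hv : LimDir z c v) (hw : LimDir z d w) (hv1 : tn z v ≤ 1) (hw1 : tn z w ≤ 1) :
    Real.cos (dist z x) * Real.cos (dist z y)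
      + Real.sin (dist z x) * Real.sin (dist z y) * tin z v w ≤ Real.cos (dist x y) := by
  have hne := UF_neBot
  have hx0 : 0 < dist z x := dist_pos.2 hx
  have hy0 : 0 < dist z y := dist_pos.2 hy
  have hS : 0 ≤ Real.sin (dist z x) * Real.sin (dist z y) :=
    mul_nonneg (Real.sin_nonneg_of_nonneg_of_le_pi dist_nonneg (hM.diam_le z x))
      (Real.sin_nonneg_of_nonneg_of_le_pi dist_nonneg (hM.diam_le z y))
  -- the limit of the differences
  have hvw : Tendsto (fun s : ℝ => tn z (s⁻¹ • (extChartAt 𝓘(ℝ, E) z (c s) -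
      extChartAt 𝓘(ℝ, E) z (d s)))) UF (𝓝 (tn z (v - w))) := by
    have h1 := hv.sub hw
    have h2 := ((tn_continuous z).tendsto (v - w)).comp h1
    refine h2.congr fun s => ?_
    simp only [Function.comp_apply]
    rw [← smul_sub, sub_sub_sub_cancel_right]
  have key : ∀ r : ℝ, 1 < r → Real.cos (dist z x) * Real.cos (dist z y) +
      Real.sin (dist z x) * Real.sin (dist z y) * (1 - r ^ 4 * tn z (v - w) ^ 2 / 2) ≤
      Real.cos (dist x y) := by
    intro r hr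
    have h1 : Tendsto (fun s : ℝ => Real.cos (dist z x) * Real.cos (dist z y) +
        Real.sin (dist z x) * Real.sin (dist z y) * (1 - r ^ 4 *
          tn z (s⁻¹ • (extChartAt 𝓘(ℝ, E) z (c s) - extChartAt 𝓘(ℝ, E) z (d s))) ^ 2 / 2)) UF
        (𝓝 (Real.cos (dist z x) * Real.cos (dist z y) +
          Real.sin (dist z x) * Real.sin (dist z y) * (1 - r ^ 4 * tn z (v - w) ^ 2 / 2))) :=
      tendsto_const_nhds.add (tendsto_const_nhds.mul (tendsto_const_nhds.sub
        ((tendsto_const_nhds.mul (hvw.pow 2)).div_const 2)))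
    refine le_of_tendsto h1 ?_
    have e1 := UF_le (Ioc_mem_nhdsGT hx0)
    have e2 := UF_le (Ioc_mem_nhdsGT hy0)
    have e3 := UF_le (((hc.tendsto hx).prodMk_nhds (hd.tendsto hy)) (hDUB z r hr))
    have e4 : ∀ᶠ s in UF, s ≤ r * Real.sin s := by
      apply UF_le
      have h2 : Tendsto (fun s : ℝ => r * (1 - s ^ 2 / 6)) (𝓝 0) (𝓝 (r * (1 - 0 ^ 2 / 6))) := by
        apply Continuous.tendsto
        fun_prop
      have h3 : ∀ᶠ s in 𝓝 (0 : ℝ), 1 < r * (1 - s ^ 2 / 6) := by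
        apply h2.eventually (lt_mem_nhds _)
        simpa using hr
      filter_upwards [nhdsWithin_le_nhds h3, self_mem_nhdsWithin] with s hs hs0
      have hs0' : 0 < s := hs0
      have h4 := Real.sin_gt_sub_cube hs0'
      have h5 : s * 1 < s * (r * (1 - s ^ 2 / 6)) := mul_lt_mul_of_pos_left hs hs0'
      have h6 : s * (r * (1 - s ^ 2 / 6)) = r * (s - s ^ 3 / 6) := by ring
      have h7 : r * (s - s ^ 3 / 6) ≤ r * Real.sin s :=
        mul_le_mul_of_nonneg_left h4.le (by linarith only [hr])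
      show s ≤ r * Real.sin s
      linarith only [h5, h6, h7]
    filter_upwards [e1, e2, e3, e4] with s hs1 hs2 hs3 hs4
    have hs0 : 0 < s := hs1.1
    have hsin : 0 < Real.sin s := by
      by_contra hc'
      nlinarith only [hs4, hs0, hr, not_lt.1 hc']
    have h2 := hinge_metric hM hc hd hs0.le hs1.2 hs2.2
    have h3 : dist (c s) (d s) ≤ r * tn z (extChartAt 𝓘(ℝ, E) z (c s) -
      extChartAt 𝓘(ℝ, E) z (d s)) := hs3
    obtain ⟨δ, hδ⟩ : ∃ δ, δ = tn z (s⁻¹ • (extChartAt 𝓘(ℝ, E) z (c s) -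
      extChartAt 𝓘(ℝ, E) z (d s))) := ⟨_, rfl⟩
    have hδ0 : 0 ≤ δ := hδ ▸ tn_nonneg z _
    have h4 : tn z (extChartAt 𝓘(ℝ, E) z (c s) - extChartAt 𝓘(ℝ, E) z (d s)) = s * δ := by
      rw [hδ, tn_smul z (inv_nonneg.2 hs0.le), ← mul_assoc, mul_inv_cancel₀ hs0.ne', one_mul]
    rw [h4] at h3
    rw [← hδ]
    have h5 : 1 - (r ^ 2 * Real.sin s * δ) ^ 2 / 2 ≤ Real.cos (dist (c s) (d s)) := by
      have h6 := Real.one_sub_sq_div_two_le_cos (x := dist (c s) (d s))
      have h7 : dist (c s) (d s) ≤ r ^ 2 * Real.sin s * δ := by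
        calc dist (c s) (d s) ≤ r * (s * δ) := h3
          _ ≤ r * (r * Real.sin s * δ) := mul_le_mul_of_nonneg_left
              (mul_le_mul_of_nonneg_right hs4 hδ0) (by linarith only [hr])
          _ = r ^ 2 * Real.sin s * δ := by ring
      have h8 : dist (c s) (d s) ^ 2 ≤ (r ^ 2 * Real.sin s * δ) ^ 2 :=
        pow_le_pow_left₀ dist_nonneg h7 2
      linarith only [h6, h8]
    have h6 : Real.sin s ^ 2 * (1 - r ^ 4 * δ ^ 2 / 2) ≤
        Real.cos (dist (c s) (d s)) - Real.cos s ^ 2 := by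
      have h7 := Real.sin_sq_add_cos_sq s
      calc Real.sin s ^ 2 * (1 - r ^ 4 * δ ^ 2 / 2)
          = Real.sin s ^ 2 - (r ^ 2 * Real.sin s * δ) ^ 2 / 2 := by ring
        _ ≤ Real.cos (dist (c s) (d s)) - Real.cos s ^ 2 := by linarith only [h5, h7]
    have h7 := mul_le_mul_of_nonneg_left h6 hS
    have h8 : Real.sin s ^ 2 * (Real.cos (dist z x) * Real.cos (dist z y) +
        Real.sin (dist z x) * Real.sin (dist z y) * (1 - r ^ 4 * δ ^ 2 / 2)) ≤
        Real.sin s ^ 2 * Real.cos (dist x y) := by linarith only [h2, h7]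
    exact le_of_mul_le_mul_left h8 (by positivity)
  have h9 : Real.cos (dist z x) * Real.cos (dist z y) +
      Real.sin (dist z x) * Real.sin (dist z y) * (1 - tn z (v - w) ^ 2 / 2) ≤
      Real.cos (dist x y) := by
    have h1 : Tendsto (fun r : ℝ => Real.cos (dist z x) * Real.cos (dist z y) +
        Real.sin (dist z x) * Real.sin (dist z y) * (1 - r ^ 4 * tn z (v - w) ^ 2 / 2))
        (𝓝[>] 1) (𝓝 (Real.cos (dist z x) * Real.cos (dist z y) +
        Real.sin (dist z x) * Real.sin (dist z y) * (1 - 1 ^ 4 * tn z (v - w) ^ 2 / 2))) := by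
      apply Tendsto.mono_left _ nhdsWithin_le_nhds
      apply Continuous.tendsto
      fun_prop
    have h2 := le_of_tendsto h1 (by
      filter_upwards [self_mem_nhdsWithin] with r hr
      exact key r hr)
    rw [one_pow, one_mul] at h2
    exact h2
  have h10 := tn_sub_sq z v w
  have h11 : tin z v w ≤ 1 - tn z (v - w) ^ 2 / 2 := by
    have h12 : tn z v ^ 2 ≤ 1 := pow_le_one₀ (tn_nonneg z v) hv1
    have h13 : tn z w ^ 2 ≤ 1 := pow_le_one₀ (tn_nonneg z w) hw1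
    linarith only [h10, h12, h13]
  have h12 := mul_le_mul_of_nonneg_left h11 hS
  linarith only [h9, h12]

end Pool.Agent.H48.FXD
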