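import Pool.Agent.H48.FXD.Defs

/-!
# MP_ea41d9_gt: the hinge inequality in a space of curvature at least one
-/

open Filter Set
open scoped Topology

namespace Pool.Agent.H48.FXD

variable {M : Type*} [MetricSpace M] {c d : ℝ → M} {x y z : M}

theorem MinGeo.dist_start (h : MinGeo c x y) {t : ℝ} (ht : t ∈ Icc (0 : ℝ) (dist x y)) :
    dist x (c t) = t := by
  have h1 := h.isom 0 (left_mem_Icc.2 dist_nonneg) t ht
  rw [h.start, zero_sub, abs_neg, abs_of_nonneg ht.1] at h1
  exact h1

theorem MinGeo.sub (h : MinGeo c x y) {t : ℝ} (ht : t ∈ Icc (0 : ℝ) (dist x y)) :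
    MinGeo c x (c t) where
  start := h.start
  finish := by rw [h.dist_start ht]
  isom := fun s hs r hr => by
    rw [h.dist_start ht] at hs hr
    exact h.isom s ⟨hs.1, hs.2.trans ht.2⟩ r ⟨hr.1, hr.2.trans ht.2⟩

theorem MinGeo.compare (hM : CurvGeOne M) (h : MinGeo c x y) (p : M) {s t : ℝ} (hs : 0 ≤ s)
    (hst : s ≤ t) (ht : t ≤ dist x y) :
    Real.sin t * Real.cos (dist p (c s)) ≤
      Real.sin (t - s) * Real.cos (dist p x) + Real.sin s * Real.cos (dist p (c t)) := by
  have ht' : t ∈ Icc (0 : ℝ) (dist x y) := ⟨hs.trans hst, ht⟩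
  have h1 := hM.comparison p x (c t) c (h.sub ht') s (by
    rw [h.dist_start ht']
    exact ⟨hs, hst⟩)
  rw [h.dist_start ht'] at h1
  exact h1

/-- The hinge inequality with the comparison angle of two near points. -/
theorem hinge_metric (hM : CurvGeOne M) (hc : MinGeo c z x) (hd : MinGeo d z y) {s : ℝ}
    (hs : 0 ≤ s) (hsx : s ≤ dist z x) (hsy : s ≤ dist z y) :
    Real.sin s ^ 2 * (Real.cos (dist z x) * Real.cos (dist z y)) +
      Real.sin (dist z x) * Real.sin (dist z y) *
        (Real.cos (dist (c s) (d s)) - Real.cos s ^ 2) ≤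
      Real.sin s ^ 2 * Real.cos (dist x y) := by
  have h1 := hd.compare hM (c s) hs hsy le_rfl
  have h2 := hc.compare hM y hs hsx le_rfl
  have hcz : dist (c s) z = s := by
    rw [dist_comm]
    exact hc.dist_start ⟨hs, hsx⟩
  rw [hcz, hd.finish] at h1
  rw [hc.finish, dist_comm y (c s), dist_comm y z, dist_comm y x] at h2
  have ha : 0 ≤ Real.sin (dist z x) :=
    Real.sin_nonneg_of_nonneg_of_le_pi dist_nonneg (hM.diam_le z x)
  have hss : 0 ≤ Real.sin s :=
    Real.sin_nonneg_of_nonneg_of_le_pi hs (hsx.trans (hM.diam_le z x))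
  have h3 := mul_le_mul_of_nonneg_left h1 ha
  have h4 := mul_le_mul_of_nonneg_left h2 hss
  rw [Real.sin_sub] at h3 h4
  linarith only [h3, h4]

end Pool.Agent.H48.FXD
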